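import Pool.Agent.K7.H77.Chain.Neg

set_option autoImplicit false

/-!
# MP_ea2126_lc: maximal ideals on `ω` as unions of chains of ideals

In ZFC there is a strictly increasing `ω₁`-sequence of ideals on `ω` whose union is a maximal
ideal. For a limit ordinal `δ` such a sequence of length `δ` exists if and only if `δ` has
uncountable cofinality and at most continuum many elements.
-/

open Set Cardinal Ordinal

namespace Pool.Agent.Results.MP_ea2126_lc.ChainsOfEveryLength

open Pool.Agent.K7.H77.Chain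

/-- `J` restricted to `δ` is a strictly increasing sequence of ideals on `ω`, indexed by the
ordinals below `δ`, and its union is a maximal ideal on `ω`. -/
def IsChain (δ : Ordinal.{0}) (J : Ordinal.{0} → Set (Set ℕ)) : Prop :=
  (∀ α < δ, IsIdeal (J α)) ∧ (∀ α β, α < β → β < δ → J α ⊂ J β) ∧
    IsMaximalIdeal {A | ∃ α < δ, A ∈ J α}

theorem exists_of_cof {δ : Ordinal.{0}} (h1 : ℵ₀ < δ.cof) (h2 : δ.card ≤ 𝔠) :
    ∃ J, IsChain δ J := by
  classical
  have hlim : Order.IsSuccLimit δ := one_lt_cof_iff.1 (one_lt_aleph0.trans h1)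
  have hinj : Nonempty (Iio δ ↪ (ℕ → Bool)) := by
    rw [← Cardinal.lift_mk_le', Cardinal.mk_Iio_ordinal]
    have : #(ℕ → Bool) = 𝔠 := by simp
    rw [this, Cardinal.lift_uzero]
    exact Cardinal.lift_le.2 h2
  obtain ⟨φ⟩ := hinj
  obtain ⟨X, hX⟩ := exists_indep φ φ.injective
  have hb : ∀ S : Set (Iio δ), S.Countable → ∃ a, ∀ s ∈ S, s < a := by
    intro S hS
    rcases S.eq_empty_or_nonempty with rfl | hne
    · exact ⟨⟨0, hlim.bot_lt⟩, by simp⟩
    · obtain ⟨f, hf⟩ := hS.exists_eq_range hne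
      have h3 : ⨆ n, (f n : Ordinal) < δ :=
        iSup_lt_of_lt_cof (by simpa using h1) (fun n => (f n).2)
      refine ⟨⟨Order.succ (⨆ n, (f n : Ordinal)), hlim.succ_lt h3⟩, ?_⟩
      intro s hs
      rw [hf] at hs
      obtain ⟨n, rfl⟩ := hs
      rw [← Subtype.coe_lt_coe]
      exact Order.lt_succ_of_le (Ordinal.le_iSup (fun n => (f n : Ordinal)) n)
  obtain ⟨K, hK, hlt, hmax⟩ := exists_chain X hX hb
  refine ⟨fun α => if h : α < δ then K ⟨α, h⟩ else ∅, ?_, ?_, ?_⟩
  · intro α h
    simp only [h, dif_pos]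
    exact hK _
  · intro α β h1 h2
    simp only [h2, h1.trans h2, dif_pos]
    exact hlt _ _ h1
  · convert hmax using 1
    ext A
    simp only [mem_ofPred_eq, mem_iUnion]
    constructor
    · rintro ⟨α, h, hA⟩
      rw [dif_pos h] at hA
      exact ⟨⟨α, h⟩, hA⟩
    · rintro ⟨⟨α, h⟩, hA⟩
      have h' : α < δ := h
      exact ⟨α, h', by rw [dif_pos h']; exact hA⟩

theorem cof_of_exists {δ : Ordinal.{0}} (hlim : Order.IsSuccLimit δ)
    {J : Ordinal.{0} → Set (Set ℕ)} (hJ : IsChain δ J) : ℵ₀ < δ.cof ∧ δ.card ≤ 𝔠 := by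
  obtain ⟨hid, hlt, hmax⟩ := hJ
  have : Nonempty (Iio δ) := ⟨⟨0, hlim.bot_lt⟩⟩
  have : NoMaxOrder (Iio δ) := ⟨fun a => ⟨⟨Order.succ a.1, hlim.succ_lt a.2⟩, by
    rw [← Subtype.coe_lt_coe]
    exact Order.lt_succ _⟩⟩
  have hU : (⋃ a : Iio δ, J a) = {A | ∃ α < δ, A ∈ J α} := by
    ext A
    simp only [mem_ofPred_eq, mem_iUnion]
    constructor
    · rintro ⟨⟨α, h⟩, hA⟩
      exact ⟨α, h, hA⟩
    · rintro ⟨α, h, hA⟩
      exact ⟨⟨α, h⟩, hA⟩
  constructor
  · by_contra hcon
    rw [not_lt] at hcon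
    obtain ⟨ι, f, hf, hι⟩ := exists_lsub_cof δ
    have hc : Countable ι := by
      rw [← Cardinal.mk_le_aleph0_iff, hι]
      exact hcon
    have hfl : ∀ i, f i < δ := fun i => by
      rw [← hf]
      exact lt_lsub f i
    obtain ⟨a, ha⟩ := bounded_of_chain (ι := Iio δ) (fun a => J a) (fun a => hid a a.2)
      (fun a b hab => hlt a b hab b.2) (by rw [hU]; exact hmax) (range fun i => ⟨f i, hfl i⟩)
      (countable_range _)
    have : lsub f ≤ a := by
      rw [lsub_le_iff]
      intro i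
      exact ha ⟨f i, hfl i⟩ ⟨i, rfl⟩
    rw [hf] at this
    exact absurd a.2 (not_lt.2 this)
  · have hex : ∀ a : Iio δ, ∃ A, A ∈ J (Order.succ a.1) ∧ A ∉ J a := by
      intro a
      obtain ⟨A, h1, h2⟩ := exists_of_ssubset (hlt a (Order.succ a.1) (Order.lt_succ _)
        (hlim.succ_lt a.2))
      exact ⟨A, h1, h2⟩
    choose g hg1 hg2 using hex
    have hmono : ∀ α β, α ≤ β → β < δ → J α ⊆ J β := by
      intro α β h1 h2
      rcases h1.lt_or_eq with h | rfl
      · exact (hlt α β h h2).1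
      · exact Subset.rfl
    have hinj : Function.Injective g := by
      intro a b hab
      rcases lt_trichotomy a b with h | h | h
      · exfalso
        apply hg2 b
        rw [← hab]
        exact hmono _ _ (Order.succ_le_of_lt h) b.2 (hg1 a)
      · exact h
      · exfalso
        apply hg2 a
        rw [hab]
        exact hmono _ _ (Order.succ_le_of_lt h) a.2 (hg1 b)
    have h3 := Cardinal.lift_mk_le'.2 ⟨⟨g, hinj⟩⟩
    have h4 : #(Set ℕ) = 𝔠 := by simp
    rw [Cardinal.mk_Iio_ordinal, Cardinal.lift_uzero, h4] at h3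
    exact Cardinal.lift_le.1 h3

/-- **Main theorem.** (1) the answer to Q1 is yes: there is a strictly increasing `ω₁`-sequence of
ideals on `ω` whose union is a maximal ideal. (2) For a limit ordinal `δ` there is such a sequence
of length `δ` iff the cofinality of `δ` is uncountable and `δ` has at most continuum many
elements. (3) The same for chains indexed by a linear order without a greatest element, of size at
most continuum: they exist iff every countable set of indices has a strict upper bound. -/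
theorem result :
    (∃ J : Ordinal.{0} → Set (Set ℕ), IsChain ω₁ J) ∧
    (∀ δ : Ordinal.{0}, Order.IsSuccLimit δ → ((∃ J, IsChain δ J) ↔ ℵ₀ < δ.cof ∧ δ.card ≤ 𝔠)) ∧
    (∀ (ι : Type) [LinearOrder ι] [Nonempty ι] [NoMaxOrder ι], #ι ≤ 𝔠 →
      ((∃ K : ι → Set (Set ℕ), (∀ a, IsIdeal (K a)) ∧ (∀ a b, a < b → K a ⊂ K b) ∧
          IsMaximalIdeal (⋃ a, K a)) ↔
        ∀ S : Set ι, S.Countable → ∃ a, ∀ s ∈ S, s < a)) := by
  have h2 : ∀ δ : Ordinal.{0}, Order.IsSuccLimit δ →
      ((∃ J, IsChain δ J) ↔ ℵ₀ < δ.cof ∧ δ.card ≤ 𝔠) := fun δ hlim =>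
    ⟨fun ⟨_, hJ⟩ => cof_of_exists hlim hJ, fun h => exists_of_cof h.1 h.2⟩
  refine ⟨?_, h2, ?_⟩
  · refine exists_of_cof ?_ ?_
    · rw [cof_omega_one]
      exact aleph0_lt_aleph_one
    · rw [card_omega]
      exact aleph_one_le_continuum
  · intro ι _ _ _ hι
    constructor
    · rintro ⟨K, hK, hlt, hmax⟩ S hS
      exact bounded_of_chain K hK hlt hmax S hS
    · intro hb
      have hinj : Nonempty (ι ↪ (ℕ → Bool)) := by
        rw [← Cardinal.le_def]
        have : #(ℕ → Bool) = 𝔠 := by simp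
        rw [this]
        exact hι
      obtain ⟨φ⟩ := hinj
      obtain ⟨X, hX⟩ := exists_indep φ φ.injective
      exact exists_chain X hX hb

end Pool.Agent.Results.MP_ea2126_lc.ChainsOfEveryLength
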